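import Pool.Agent.helper88.PF.Spec

/-!
# Project pf (MP_0b485e_lc), row DPK: the conditions are decidable
-/

set_option autoImplicit false

namespace PF

/-- the type of the parameters -/
abbrev DPK_T : Type := ((ℕ × ℕ × List Bool × ℕ) × List SCla) × (ℕ × ℕ × ℕ) × ℕ

theorem DPK_pow : Primrec₂ ((· ^ ·) : ℕ → ℕ → ℕ) := Primrec₂.unpaired'.1 Nat.Primrec.pow

theorem DPK_imp {α : Type} [Primcodable α] {p q : α → Prop} (hp : ComputablePred p)
    (hq : ComputablePred q) : ComputablePred (fun a => p a → q a) :=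
  (cp_or (cp_not hp) hq).of_eq (fun a => by tauto)

theorem DPK_tb {α : Type} [Primcodable α] {f g : α → ℕ} (hf : Primrec f) (hg : Primrec g) :
    ComputablePred (fun a => tb (f a) (g a)) := by
  have h1 : Primrec (fun a => f a / 2 ^ g a % 2) :=
    Primrec.nat_mod.comp (Primrec.nat_div.comp hf (DPK_pow.comp (Primrec.const 2) hg)) (Primrec.const 2)
  exact cp_eq h1.to_comp (Primrec.const 1).to_comp

theorem DPK_blist {α β : Type} [Primcodable α] [Primcodable β] (d : β) {p : α → β → Prop}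
    {l : α → List β} (hp : ComputablePred (fun x : α × β => p x.1 x.2)) (hl : Primrec l) :
    ComputablePred (fun a => ∀ b ∈ l a, p a b) := by
  have h1 : Primrec (fun x : α × ℕ => (x.1, (l x.1).getD x.2 d)) :=
    Primrec.fst.pair ((Primrec.list_getD d).comp (hl.comp Primrec.fst) Primrec.snd)
  have h2 : ComputablePred (fun x : α × ℕ => p x.1 ((l x.1).getD x.2 d)) := cp_comp h1.to_comp hp
  have h3 := cp_ball (p := fun a k => p a ((l a).getD k d)) h2 (Primrec.list_length.comp hl).to_comp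
  refine h3.of_eq fun a => ?_
  constructor
  · intro h b hb
    obtain ⟨k, hk, rfl⟩ := List.getElem_of_mem hb
    have h4 := h k hk
    rwa [List.getD_eq_getElem (l a) d hk] at h4
  · intro h k hk
    rw [List.getD_eq_getElem (l a) d hk]
    exact h _ (List.getElem_mem hk)

theorem DPK_ev (hDPE : DPE_stmt) {α : Type} [Primcodable α] {r M m ζ b x τ : α → ℕ} {l : α → List ℕ}
    (hr : Primrec r) (hM : Primrec M) (hm : Primrec m) (hζ : Primrec ζ) (hb : Primrec b)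
    (hx : Primrec x) (hτ : Primrec τ) (hl : Primrec l) :
    Primrec (fun a => evS (sttN (r a) (M a) (m a) (ζ a) (b a) (x a) (τ a)) (l a)) :=
  hDPE.comp (((hr.pair (hM.pair hm)).pair (hζ.pair (hb.pair (hx.pair hτ)))).pair hl)

theorem DPK_bas {α : Type} [Primcodable α] {cl : α → List SCla} (h : Primrec cl) :
    Primrec (fun a => bas (cl a)) := by
  have h1 : Primrec (fun a => (cl a).foldr (fun (d : SCla) (n : ℕ) => d.2.length + n) 0) := by
    refine Primrec.list_foldr h (Primrec.const 0) (h := fun _ p => p.1.2.length + p.2) ?_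
    exact Primrec.nat_add.comp
      (Primrec.list_length.comp (Primrec.snd.comp (Primrec.fst.comp Primrec.snd)))
      (Primrec.snd.comp Primrec.snd)
  have h2 : Primrec (fun a => (cl a).foldr (fun (d : SCla) (n : ℕ) => d.2.length + n) 0 + 1) :=
    Primrec.succ.comp h1
  refine h2.of_eq fun a => ?_
  unfold bas
  congr 1
  induction cl a with
  | nil => rfl
  | cons c l ih => rw [List.foldr_cons, List.map_cons, List.sum_cons, ih]

section proj

variable {α : Type} [Primcodable α] {z : α → DPK_T}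

theorem DPK_m (hz : Primrec z) : Primrec (fun a => (z a).1.1.2.1) :=
  Primrec.fst.comp (Primrec.snd.comp (Primrec.fst.comp (Primrec.fst.comp hz)))

theorem DPK_M (hz : Primrec z) : Primrec (fun a => (z a).1.1.2.2.1.length) :=
  Primrec.list_length.comp (Primrec.fst.comp (Primrec.snd.comp (Primrec.snd.comp
    (Primrec.fst.comp (Primrec.fst.comp hz)))))

theorem DPK_r (hz : Primrec z) : Primrec (fun a => (z a).1.1.2.2.2) :=
  Primrec.snd.comp (Primrec.snd.comp (Primrec.snd.comp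
    (Primrec.fst.comp (Primrec.fst.comp hz))))

theorem DPK_cl (hz : Primrec z) : Primrec (fun a => (z a).1.2) :=
  Primrec.snd.comp (Primrec.fst.comp hz)

theorem DPK_τ (hz : Primrec z) : Primrec (fun a => (z a).2.1.1) :=
  Primrec.fst.comp (Primrec.fst.comp (Primrec.snd.comp hz))

theorem DPK_J (hz : Primrec z) : Primrec (fun a => (z a).2.1.2.1) :=
  Primrec.fst.comp (Primrec.snd.comp (Primrec.fst.comp (Primrec.snd.comp hz)))

theorem DPK_lam (hz : Primrec z) : Primrec (fun a => (z a).2.1.2.2) :=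
  Primrec.snd.comp (Primrec.snd.comp (Primrec.fst.comp (Primrec.snd.comp hz)))

theorem DPK_c (hz : Primrec z) : Primrec (fun a => (z a).2.2) :=
  Primrec.snd.comp (Primrec.snd.comp hz)

/-- the clause number `i` -/
theorem DPK_cla (hz : Primrec z) {i : α → ℕ} (hi : Primrec i) :
    Primrec (fun a => ((z a).1.2.getD (i a) ([], []) : SCla)) :=
  (Primrec.list_getD ([], [])).comp (DPK_cl hz) hi

end proj

theorem DPK_ball {α : Type} [Primcodable α] {P : α × ℕ → Prop} {g : α → ℕ}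
    (hp : ComputablePred P) (hg : Computable g) :
    ComputablePred (fun a => ∀ k < g a, P (a, k)) :=
  cp_ball (p := fun a k => P (a, k)) hp hg

theorem DPK (hDPE : DPE_stmt) : DPK_stmt := by
  constructor
  · have h1 : ComputablePred (fun y : (DPK_T × ℕ) × (List ℕ × List ℕ) =>
        evS (sttN y.1.1.1.1.2.2.2 y.1.1.1.1.2.2.1.length y.1.1.1.1.2.1
          (y.1.1.2.2 / 2 ^ (y.1.1.1.1.2.1 + y.1.2 * y.1.1.1.1.2.2.2)) 0 y.1.1.2.2 0) y.2.1 =
        evS (sttN y.1.1.1.1.2.2.2 y.1.1.1.1.2.2.1.length y.1.1.1.1.2.1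
          (y.1.1.2.2 / 2 ^ (y.1.1.1.1.2.1 + y.1.2 * y.1.1.1.1.2.2.2)) 0 y.1.1.2.2 0) y.2.2) := by
      have hz : Primrec (fun y : (DPK_T × ℕ) × (List ℕ × List ℕ) => y.1.1) :=
        Primrec.fst.comp Primrec.fst
      have hi : Primrec (fun y : (DPK_T × ℕ) × (List ℕ × List ℕ) => y.1.2) :=
        Primrec.snd.comp Primrec.fst
      have hζ : Primrec (fun y : (DPK_T × ℕ) × (List ℕ × List ℕ) =>
          y.1.1.2.2 / 2 ^ (y.1.1.1.1.2.1 + y.1.2 * y.1.1.1.1.2.2.2)) :=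
        Primrec.nat_div.comp (DPK_c hz) (DPK_pow.comp (Primrec.const 2)
          (Primrec.nat_add.comp (DPK_m hz) (Primrec.nat_mul.comp hi (DPK_r hz))))
      exact cp_eq
        (DPK_ev hDPE (DPK_r hz) (DPK_M hz) (DPK_m hz) hζ (Primrec.const 0) (DPK_c hz)
          (Primrec.const 0) (Primrec.fst.comp Primrec.snd)).to_comp
        (DPK_ev hDPE (DPK_r hz) (DPK_M hz) (DPK_m hz) hζ (Primrec.const 0) (DPK_c hz)
          (Primrec.const 0) (Primrec.snd.comp Primrec.snd)).to_comp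
    have h2 := DPK_blist (α := DPK_T × ℕ) (β := List ℕ × List ℕ) ([], [])
      (p := fun y h => evS (sttN y.1.1.1.2.2.2 y.1.1.1.2.2.1.length y.1.1.1.2.1
          (y.1.2.2 / 2 ^ (y.1.1.1.2.1 + y.2 * y.1.1.1.2.2.2)) 0 y.1.2.2 0) h.1 =
        evS (sttN y.1.1.1.2.2.2 y.1.1.1.2.2.1.length y.1.1.1.2.1
          (y.1.2.2 / 2 ^ (y.1.1.1.2.1 + y.2 * y.1.1.1.2.2.2)) 0 y.1.2.2 0) h.2)
      (l := fun y => (y.1.1.2.getD y.2 ([], [])).1) h1
      (Primrec.fst.comp (DPK_cla (z := fun y : DPK_T × ℕ => y.1) Primrec.fst (i := fun y => y.2)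
        Primrec.snd))
    have h3 := DPK_ball (α := DPK_T) (g := fun z => z.1.2.length)
      (DPK_imp (DPK_tb (DPK_J (z := fun y : DPK_T × ℕ => y.1) Primrec.fst) Primrec.snd) h2)
      (Primrec.list_length.comp (DPK_cl (z := fun y : DPK_T => y) Primrec.id)).to_comp
    exact h3
  · have hev : ∀ (l : ((DPK_T × ℕ) × ℕ) × (List ℕ × List ℕ) → List ℕ), Primrec l →
        Primrec (fun y : ((DPK_T × ℕ) × ℕ) × (List ℕ × List ℕ) =>
        evS (sttN y.1.1.1.1.1.2.2.2 y.1.1.1.1.1.2.2.1.length y.1.1.1.1.1.2.1 y.1.2 y.1.1.1.2.2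
          (y.1.1.1.2.2 / 2 ^ y.1.1.1.1.1.2.2.1.length) y.1.1.1.2.1.1) (l y)) := by
      intro l hl
      have hz : Primrec (fun y : ((DPK_T × ℕ) × ℕ) × (List ℕ × List ℕ) => y.1.1.1) :=
        Primrec.fst.comp (Primrec.fst.comp Primrec.fst)
      have hζ : Primrec (fun y : ((DPK_T × ℕ) × ℕ) × (List ℕ × List ℕ) => y.1.2) :=
        Primrec.snd.comp Primrec.fst
      exact DPK_ev hDPE (DPK_r hz) (DPK_M hz) (DPK_m hz) hζ (DPK_c hz)
        (Primrec.nat_div.comp (DPK_c hz) (DPK_pow.comp (Primrec.const 2) (DPK_M hz))) (DPK_τ hz) hl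
    have h1 : ComputablePred (fun y : ((DPK_T × ℕ) × ℕ) × (List ℕ × List ℕ) =>
        evS (sttN y.1.1.1.1.1.2.2.2 y.1.1.1.1.1.2.2.1.length y.1.1.1.1.1.2.1 y.1.2 y.1.1.1.2.2
          (y.1.1.1.2.2 / 2 ^ y.1.1.1.1.1.2.2.1.length) y.1.1.1.2.1.1) y.2.1 =
        evS (sttN y.1.1.1.1.1.2.2.2 y.1.1.1.1.1.2.2.1.length y.1.1.1.1.1.2.1 y.1.2 y.1.1.1.2.2
          (y.1.1.1.2.2 / 2 ^ y.1.1.1.1.1.2.2.1.length) y.1.1.1.2.1.1) y.2.2) :=
      cp_eq (hev _ (Primrec.fst.comp Primrec.snd)).to_comp (hev _ (Primrec.snd.comp Primrec.snd)).to_comp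
    have hcla : Primrec (fun y : (DPK_T × ℕ) × ℕ => (y.1.1.1.2.getD y.1.2 ([], []) : SCla)) :=
      DPK_cla (z := fun y : (DPK_T × ℕ) × ℕ => y.1.1) (Primrec.fst.comp Primrec.fst)
        (i := fun y => y.1.2) (Primrec.snd.comp Primrec.fst)
    have h2 := DPK_blist (α := (DPK_T × ℕ) × ℕ) (β := List ℕ × List ℕ) ([], [])
      (p := fun y h =>
        evS (sttN y.1.1.1.1.2.2.2 y.1.1.1.1.2.2.1.length y.1.1.1.1.2.1 y.2 y.1.1.2.2
          (y.1.1.2.2 / 2 ^ y.1.1.1.1.2.2.1.length) y.1.1.2.1.1) h.1 =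
        evS (sttN y.1.1.1.1.2.2.2 y.1.1.1.1.2.2.1.length y.1.1.1.1.2.1 y.2 y.1.1.2.2
          (y.1.1.2.2 / 2 ^ y.1.1.1.1.2.2.1.length) y.1.1.2.1.1) h.2)
      (l := fun y => (y.1.1.1.2.getD y.1.2 ([], [])).1) h1 (Primrec.fst.comp hcla)
    -- the conclusion
    have hidx : Primrec (fun y : (DPK_T × ℕ) × ℕ =>
        y.1.1.2.1.2.2 / (bas y.1.1.1.2) ^ y.1.2 % bas y.1.1.1.2) := by
      have hz : Primrec (fun y : (DPK_T × ℕ) × ℕ => y.1.1) := Primrec.fst.comp Primrec.fst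
      exact Primrec.nat_mod.comp (Primrec.nat_div.comp (DPK_lam hz)
        (DPK_pow.comp (DPK_bas (DPK_cl hz)) (Primrec.snd.comp Primrec.fst))) (DPK_bas (DPK_cl hz))
    have hlist : Primrec (fun y : (DPK_T × ℕ) × ℕ => (y.1.1.1.2.getD y.1.2 ([], [])).2) :=
      Primrec.snd.comp hcla
    have hget : Primrec (fun y : (DPK_T × ℕ) × ℕ => (y, ((y.1.1.1.2.getD y.1.2 ([], [])).2.getD
        (y.1.1.2.1.2.2 / (bas y.1.1.1.2) ^ y.1.2 % bas y.1.1.1.2) ([], []) : List ℕ × List ℕ))) :=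
      Primrec.id.pair ((Primrec.list_getD ([], [])).comp hlist hidx)
    have h4 : ComputablePred (fun y : (DPK_T × ℕ) × ℕ =>
        ∃ a, (y.1.1.1.2.getD y.1.2 ([], [])).2[y.1.1.2.1.2.2 / (bas y.1.1.1.2) ^ y.1.2 %
          bas y.1.1.1.2]? = some a ∧
        evS (sttN y.1.1.1.1.2.2.2 y.1.1.1.1.2.2.1.length y.1.1.1.1.2.1 y.2 y.1.1.2.2
          (y.1.1.2.2 / 2 ^ y.1.1.1.1.2.2.1.length) y.1.1.2.1.1) a.1 =
        evS (sttN y.1.1.1.1.2.2.2 y.1.1.1.1.2.2.1.length y.1.1.1.1.2.1 y.2 y.1.1.2.2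
          (y.1.1.2.2 / 2 ^ y.1.1.1.1.2.2.1.length) y.1.1.2.1.1) a.2) := by
      refine (cp_and (cp_lt hidx.to_comp (Primrec.list_length.comp hlist).to_comp)
        (cp_comp hget.to_comp h1)).of_eq fun y => ?_
      constructor
      · rintro ⟨h5, h6⟩
        refine ⟨_, List.getElem?_eq_getElem h5, ?_⟩
        rw [List.getD_eq_getElem _ _ h5] at h6
        exact h6
      · rintro ⟨a, h5, h6⟩
        obtain ⟨h7, h8⟩ := List.getElem?_eq_some_iff.mp h5
        refine ⟨h7, ?_⟩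
        rw [List.getD_eq_getElem _ _ h7, h8]
        exact h6
    have h5 := DPK_ball (α := DPK_T × ℕ) (g := fun y => 2 ^ y.1.1.1.2.2.2) (DPK_imp h2 h4)
      (DPK_pow.comp (Primrec.const 2) (DPK_r (z := fun y : DPK_T × ℕ => y.1) Primrec.fst)).to_comp
    have h6 := DPK_ball (α := DPK_T) (g := fun z => z.1.2.length)
      (DPK_imp (DPK_tb (DPK_J (z := fun y : DPK_T × ℕ => y.1) Primrec.fst) Primrec.snd) h5)
      (Primrec.list_length.comp (DPK_cl (z := fun y : DPK_T => y) Primrec.id)).to_comp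
    exact h6

end PF
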